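import Pool.Agent.helper51.WR.LinS

/-!
# WRB-Big: the bound `k m < 3 n (n + 1)`

Let there be two cusps besides the one at infinity. If no finite place is totally ramified, then
`k m ≤ 3 (n - 1) (n - 2)` (`bigA`: `genE` with `f = n - max (E, g, K)`, `E` and `K` the largest ramification indices
over the finite places and over infinity, `g = gcd (n - k, m)`, and `u + r ≤ n + k - K`). If there is a totally
ramified place and `2 ≤ k`, then `k m < 3 n (n + 1)` (`bigB`: `f = 0`; if the tangent line meets the curve in `k`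
different points, there is a cusp which is neither on this line nor the totally ramified point: `genS`).
-/

namespace WR

open Polynomial

namespace Cur

theorem Big_A {n k m f D x : ℚ} (hk : k ≤ n - 1) (hk1 : 1 ≤ k) (hf : 1 ≤ f) (hD : 0 ≤ D)
    (hm : D < m * k) (hx : x ≤ k + f)
    (h : m * (f * (n + k - 1) + k * (k - 1)) + f * (n * (n - 1)) ≤ D * x) : False := by
  have hm0 : 0 ≤ m := by
    by_contra hcon
    have : m * k ≤ 0 := mul_nonpos_of_nonpos_of_nonneg (by linarith) (by linarith)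
    linarith
  have h1 : D * x ≤ D * (k + f) := mul_le_mul_of_nonneg_left hx hD
  have h2 : D * (k + f) < m * k * (k + f) := mul_lt_mul_of_pos_right hm (by linarith)
  have h3 : 0 ≤ (f - 1) * (n - 1) := mul_nonneg (by linarith) (by linarith)
  have h4 : 0 ≤ m * (f * (n + k - 1) + k * (k - 1) - k * (k + f)) :=
    mul_nonneg hm0 (by nlinarith)
  have h5 : 0 ≤ f * (n * (n - 1)) :=
    mul_nonneg (by linarith) (mul_nonneg (by linarith) (by linarith))
  nlinarith

theorem Big_B {n k m f D x : ℚ} (hk : k ≤ n - 1) (hk1 : 1 ≤ k) (hf : k ≤ f) (hD : 0 ≤ D)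
    (hm : D < m * k) (hx : x ≤ n + k - 2)
    (h : m * (f * (n + k - 1) + k * (k - 1)) + f * (n * (n - 1)) ≤ D * x) : False := by
  have hm0 : 0 ≤ m := by
    by_contra hcon
    have : m * k ≤ 0 := mul_nonpos_of_nonpos_of_nonneg (by linarith) (by linarith)
    linarith
  have h1 : D * x ≤ D * (n + k - 1) := mul_le_mul_of_nonneg_left (by linarith) hD
  have h2 : D * (n + k - 1) < m * k * (n + k - 1) := mul_lt_mul_of_pos_right hm (by linarith)
  have h3 : 0 ≤ (f - k) * (n + k - 1) := mul_nonneg (by linarith) (by linarith)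
  have h4 : 0 ≤ k * (k - 1) := mul_nonneg (by linarith) (by linarith)
  have h5 : 0 ≤ m * (f * (n + k - 1) + k * (k - 1) - k * (n + k - 1)) :=
    mul_nonneg hm0 (by nlinarith)
  have h6 : 0 ≤ f * (n * (n - 1)) :=
    mul_nonneg (by linarith) (mul_nonneg (by linarith) (by linarith))
  nlinarith

theorem Big_C {n k m j D x : ℚ} (hk : k ≤ n - 1) (hk1 : 1 ≤ k) (hj : 0 ≤ j) (hD : 0 ≤ D)
    (hm : D < m * k) (hx : x ≤ n - 1 + j)
    (h : m * ((n - k + j) * (n + k - 1) + k * (k - 1)) + (n - k + j) * (n * (n - 1)) ≤ D * x) :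
    False := by
  have hm0 : 0 ≤ m := by
    by_contra hcon
    have : m * k ≤ 0 := mul_nonpos_of_nonpos_of_nonneg (by linarith) (by linarith)
    linarith
  have h1 : D * x ≤ D * (n - 1 + j) := mul_le_mul_of_nonneg_left hx hD
  have h2 : D * (n - 1 + j) < m * k * (n - 1 + j) := mul_lt_mul_of_pos_right hm (by linarith)
  have h3 : 0 ≤ (n - k) * (n - 1) := mul_nonneg (by linarith) (by linarith)
  have h4 : 0 ≤ j * (n - 1) := mul_nonneg hj (by linarith)
  have h5 : 0 ≤ m * ((n - k + j) * (n + k - 1) + k * (k - 1) - k * (n - 1 + j)) :=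
    mul_nonneg hm0 (by nlinarith)
  have h6 : 0 ≤ (n - k + j) * (n * (n - 1)) :=
    mul_nonneg (by linarith) (mul_nonneg (by linarith) (by linarith))
  nlinarith

theorem Big_D {n k m e : ℚ} (hk2 : 2 ≤ k) (hkn : k + 1 ≤ n) (hx : e ≤ k + 1) (hs : e = k + 1 ∨ e ≤ k)
    (hm : 3 * n * (n + 1) ≤ k * m)
    (h : m * (k * (k - 1)) + 3 * ((n - e) * (n - e - 1)) ≤ 3 * (n - 1) * (n - 2) * k) : False := by
  have h1 : (n - k - 1) * (n - k - 2) ≤ (n - e) * (n - e - 1) := by
    rcases hs with rfl | hs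
    · apply le_of_eq
      ring
    · have : 0 ≤ (k + 1 - e) * ((n - e) + (n - k - 1) - 1) :=
        mul_nonneg (by linarith) (by linarith)
      nlinarith
  have h2 : 3 * n * (n + 1) * (k - 1) ≤ k * m * (k - 1) :=
    mul_le_mul_of_nonneg_right hm (by linarith)
  have h3 : (k - 1) * (4 * n - 2) ≤ k * (2 * n - k - 3) := by nlinarith
  nlinarith

theorem Big_max (S : Cur) : ∃ t₁ : ℂ, ∀ t : ℂ, S.e none t ≤ S.e none t₁ := by
  classical
  obtain ⟨P, hP⟩ : ∃ P : ℕ → Prop, P = fun N => ∃ t : ℂ, S.e none t = N := ⟨_, rfl⟩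
  have h1 : P (Nat.findGreatest P S.k) := by
    refine Nat.findGreatest_spec (m := S.e none 0) (S.LinS_none 0) ?_
    rw [hP]
    exact ⟨0, rfl⟩
  have h2 : ∃ t : ℂ, S.e none t = Nat.findGreatest P S.k := by
    have := h1
    rw [hP] at this ⊢
    exact this
  obtain ⟨t₁, h3⟩ := h2
  refine ⟨t₁, fun t => ?_⟩
  rw [h3]
  refine Nat.le_findGreatest (S.LinS_none t) ?_
  rw [hP]
  exact ⟨t, rfl⟩

/-- no finite place is totally ramified -/
theorem bigA (S : Cur) (hE : ∀ v t : ℂ, S.e (some v) t < S.n)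
    (h2 : ∃ t t' : ℂ, t ≠ t' ∧ S.IsCusp t ∧ S.IsCusp t') :
    S.m * S.k ≤ 3 * (S.n - 1) * (S.n - 2) := by
  classical
  by_contra hcon
  push Not at hcon
  have hkn := S.hkn
  have hk1 := S.hk
  obtain ⟨v₁, t₁, hmax⟩ := S.LinS_max
  obtain ⟨t₀, hmax0⟩ := S.Big_max
  obtain ⟨q, q', hqq, hq, hq'⟩ := h2
  obtain ⟨E, hEd⟩ : ∃ E, E = S.e (some v₁) t₁ := ⟨_, rfl⟩
  obtain ⟨K, hKd⟩ : ∃ K, K = S.e none t₀ := ⟨_, rfl⟩
  have hEn := hE v₁ t₁
  rw [← hEd] at hmax hEn
  rw [← hKd] at hmax0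
  obtain ⟨r, hr⟩ : ∃ r, (S.al (some v₁)).roots.toFinset.card = r := ⟨_, rfl⟩
  obtain ⟨u, hu⟩ : ∃ u, S.b.roots.toFinset.card = u := ⟨_, rfl⟩
  have hR1 := S.ram_card (some v₁)
  rw [hr, S.al_some_natDegree] at hR1
  have hR2 : S.Ram none + S.b.roots.toFinset.card = S.b.natDegree := S.ram_card none
  rw [hu, S.hb] at hR2
  -- roots
  have hE1 : 1 ≤ E := by
    obtain ⟨t, ht⟩ := IsAlgClosed.exists_root (S.al (some v₁)) (by
      intro h
      have h4 := natDegree_eq_zero_iff_degree_le_zero.2 h.le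
      rw [S.al_some_natDegree] at h4
      omega)
    exact le_trans ((e_pos_iff (some v₁) t).2 ht) (hmax v₁ t)
  have hK1 : 1 ≤ K := by
    obtain ⟨t, ht⟩ := IsAlgClosed.exists_root S.b (by
      intro h
      have h4 := natDegree_eq_zero_iff_degree_le_zero.2 h.le
      rw [S.hb] at h4
      omega)
    exact le_trans ((e_pos_iff none t).2 ht) (hmax0 t)
  have hroot1 : (S.al (some v₁)).IsRoot t₁ := (e_pos_iff (some v₁) t₁).1 (by omega)
  have hroot0 : (S.al none).IsRoot t₀ := (e_pos_iff none t₀).1 (by omega)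
  have hRE := ram_ge hroot1
  have hRK := ram_ge hroot0
  rw [← hEd] at hRE
  rw [← hKd] at hRK
  have hKk : K ≤ S.k := hKd ▸ S.LinS_none t₀
  -- the number of points
  have hur : u + r + K ≤ S.n + S.k := by
    obtain ⟨P, hP⟩ := S.cusp_over q
    obtain ⟨P', hP'⟩ := S.cusp_over q'
    have hPe := cusp_e hP hq
    have hPe' := cusp_e hP' hq'
    have hsome : ∀ v t : ℂ, 2 ≤ S.e (some v) t → u + r + K ≤ S.n + S.k := by
      intro v t h
      have := hmax v t
      omega
    cases P with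
    | some v => exact hsome v q hPe
    | none =>
      cases P' with
      | some v => exact hsome v q' hPe'
      | none =>
        by_cases h5 : q = t₀
        · have h6 : t₀ ≠ q' := fun h => hqq (h5.trans h)
          have h7 := ram_ge2 hroot0 hP' h6
          rw [← hKd] at h7
          omega
        · have h7 := ram_ge2 hroot0 hP (Ne.symm h5)
          rw [← hKd] at h7
          omega
  obtain ⟨g, hgd⟩ : ∃ g, g = Nat.gcd (S.n - S.k) S.m := ⟨_, rfl⟩
  have hgle : g ≤ S.n - S.k := by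
    rw [hgd]
    exact Nat.gcd_le_left _ (by omega)
  -- rational numbers
  have hkq : (S.k : ℚ) ≤ (S.n : ℚ) - 1 := by
    have : (S.k : ℚ) + 1 ≤ S.n := by exact_mod_cast hkn
    linarith
  have hk1q : (1 : ℚ) ≤ S.k := by exact_mod_cast hk1
  have hD : 0 ≤ 3 * ((S.n : ℚ) - 1) * (S.n - 2) :=
    mul_nonneg (mul_nonneg (by norm_num) (by linarith)) (by linarith)
  have hmq : 3 * ((S.n : ℚ) - 1) * (S.n - 2) < S.m * S.k := by
    obtain ⟨s, hs⟩ := Nat.exists_eq_add_of_le (show 2 ≤ S.n by omega)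
    have e1 : S.n - 1 = s + 1 := by omega
    have e2 : S.n - 2 = s := by omega
    rw [e1, e2] at hcon
    have h3 : ((3 * (s + 1) * s : ℕ) : ℚ) < ((S.m * S.k : ℕ) : ℚ) := by exact_mod_cast hcon
    have h4 : (S.n : ℚ) = 2 + s := by exact_mod_cast hs
    push_cast at h3
    rw [h4]
    linarith
  have hurq : (u : ℚ) + r + K ≤ S.n + S.k := by exact_mod_cast hur
  by_cases h1 : g ≤ E ∧ K ≤ E
  · obtain ⟨f, hf⟩ : ∃ f, f + E = S.n := ⟨S.n - E, by omega⟩
    have b1 := S.genE v₁ (f := f) hu hr (by rw [← hgd]; omega) (by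
      intro v t
      have := hmax v t
      omega) (by
      intro t
      have := hmax0 t
      omega)
    have hf1q : (1 : ℚ) ≤ f := by exact_mod_cast (show 1 ≤ f by omega)
    have hx : (u : ℚ) + r - 1 ≤ S.k + f := by
      have h3 : u + r ≤ S.k + f + 1 := by omega
      have : (u : ℚ) + r ≤ S.k + f + 1 := by exact_mod_cast h3
      linarith
    exact Big_A hkq hk1q hf1q hD hmq hx b1
  · by_cases h6 : K ≤ g
    · obtain ⟨f, hf⟩ : ∃ f, f + g = S.n := ⟨S.n - g, by omega⟩
      have b1 := S.genE v₁ (f := f) hu hr (by rw [← hgd]; omega) (by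
        intro v t
        have := hmax v t
        omega) (by
        intro t
        have := hmax0 t
        omega)
      have hfq : (S.k : ℚ) ≤ f := by exact_mod_cast (show S.k ≤ f by omega)
      have hx : (u : ℚ) + r - 1 ≤ S.n + S.k - 2 := by
        have : (1 : ℚ) ≤ K := by exact_mod_cast hK1
        linarith
      exact Big_B hkq hk1q hfq hD hmq hx b1
    · obtain ⟨f, hf⟩ : ∃ f, f + K = S.n := ⟨S.n - K, by omega⟩
      have b1 := S.genE v₁ (f := f) hu hr (by rw [← hgd]; omega) (by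
        intro v t
        have := hmax v t
        omega) (by
        intro t
        have := hmax0 t
        omega)
      obtain ⟨j, hj⟩ : ∃ j, j + K = S.k := ⟨S.k - K, by omega⟩
      have hfq : (f : ℚ) = (S.n : ℚ) - S.k + j := by
        have e1 : (f : ℚ) + K = S.n := by exact_mod_cast hf
        have e2 : (j : ℚ) + K = S.k := by exact_mod_cast hj
        linarith
      have hx : (u : ℚ) + r - 1 ≤ (S.n : ℚ) - 1 + j := by
        have e2 : (j : ℚ) + K = S.k := by exact_mod_cast hj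
        linarith
      rw [hfq] at b1
      exact Big_C hkq hk1q (Nat.cast_nonneg j) hD hmq hx b1

/-- a totally ramified place -/
theorem bigB (S : Cur) {v₁ t₁ : ℂ} (he : S.e (some v₁) t₁ = S.n) (hk2 : 2 ≤ S.k)
    (h2 : ∃ t t' : ℂ, t ≠ t' ∧ S.IsCusp t ∧ S.IsCusp t') :
    S.k * S.m < 3 * S.n * (S.n + 1) := by
  classical
  by_contra hcon
  push Not at hcon
  have hkn := S.hkn
  obtain ⟨r, hr⟩ : ∃ r, (S.al (some v₁)).roots.toFinset.card = r := ⟨_, rfl⟩
  obtain ⟨u, hu⟩ : ∃ u, S.b.roots.toFinset.card = u := ⟨_, rfl⟩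
  have hR1 := S.ram_card (some v₁)
  rw [hr, S.al_some_natDegree] at hR1
  have hR2 : S.Ram none + S.b.roots.toFinset.card = S.b.natDegree := S.ram_card none
  rw [hu, S.hb] at hR2
  have hroot1 : (S.al (some v₁)).IsRoot t₁ := (e_pos_iff (some v₁) t₁).1 (by omega)
  have hRE := ram_ge hroot1
  rw [he] at hRE
  have hr1 : r ≤ 1 := by omega
  have hgle : Nat.gcd (S.n - S.k) S.m ≤ S.n - S.k := Nat.gcd_le_left _ (by omega)
  have hf : ∀ v t : ℂ, S.e (some v) t + 0 ≤ S.n := fun v t => S.Gen_e_le v t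
  have hf' : ∀ t : ℂ, S.e none t + 0 ≤ S.n := fun t => by
    have := S.LinS_none t
    omega
  have hk2q : (2 : ℚ) ≤ S.k := by exact_mod_cast hk2
  have hknq : (S.k : ℚ) + 1 ≤ S.n := by exact_mod_cast hkn
  have hr1q : (r : ℚ) ≤ 1 := by exact_mod_cast hr1
  have hmq : 3 * (S.n : ℚ) * (S.n + 1) ≤ S.k * S.m := by exact_mod_cast hcon
  have hD : 0 ≤ 3 * ((S.n : ℚ) - 1) * (S.n - 2) :=
    mul_nonneg (mul_nonneg (by norm_num) (by linarith)) (by linarith)
  by_cases huk : u = S.k
  · -- all points on the tangent line are simple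
    have hRn : S.Ram none = 0 := by omega
    obtain ⟨t₂, hc₂, hne₂⟩ : ∃ t₂, S.IsCusp t₂ ∧ t₂ ≠ t₁ := by
      obtain ⟨q, q', hqq, hq, hq'⟩ := h2
      by_cases h : q = t₁
      · exact ⟨q', hq', fun h' => hqq (h.trans h'.symm)⟩
      · exact ⟨q, hq, h⟩
    obtain ⟨P, hP⟩ := S.cusp_over t₂
    have hPe := cusp_e hP hc₂
    cases P with
    | none =>
      have := ram_ge hP
      omega
    | some v₂ =>
      have hv : v₂ ≠ v₁ := by
        rintro rfl
        have h3 := ram_ge2 hroot1 hP hne₂.symm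
        rw [he] at h3
        have h4 : 1 ≤ r := by
          rw [← hr, Nat.one_le_iff_ne_zero, Finset.card_ne_zero]
          exact ⟨t₁, (S.RH_mem (some v₂) t₁).2 hroot1⟩
        omega
      have b1 := S.genS v₁ (f := 0) hu hr (by omega) hf hf' hv hP hc₂
      have b2 := S.ram_le {v₁, v₂}
      rw [Finset.sum_pair (Ne.symm hv)] at b2
      have b4 := ram_ge hP
      obtain ⟨e, hed⟩ : ∃ e, e = S.e (some v₂) t₂ := ⟨_, rfl⟩
      rw [← hed] at b1 b4 hPe
      have c1 : e ≤ S.k + 1 := by omega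
      have c1q : (e : ℚ) ≤ S.k + 1 := by exact_mod_cast c1
      have c2 : (e : ℚ) = S.k + 1 ∨ (e : ℚ) ≤ S.k := by
        rcases Nat.lt_or_ge e (S.k + 1) with h | h
        · right
          exact_mod_cast (show e ≤ S.k by omega)
        · left
          exact_mod_cast (show e = S.k + 1 by omega)
      have huq : (u : ℚ) = S.k := by exact_mod_cast huk
      have b5 : 3 * ((S.n : ℚ) - 1) * (S.n - 2) * (u + r - 1) ≤
          3 * ((S.n : ℚ) - 1) * (S.n - 2) * S.k := mul_le_mul_of_nonneg_left (by linarith) hD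
      refine Big_D hk2q hknq c1q c2 hmq (le_trans (le_of_eq ?_) (b1.trans b5))
      push_cast
      ring
  · have huk' : u + 1 ≤ S.k := by
      have : u ≤ S.k := by omega
      omega
    have b1 := S.genE v₁ (f := 0) hu hr (by omega) hf hf'
    have huq : (u : ℚ) + 1 ≤ S.k := by exact_mod_cast huk'
    have b5 : 3 * ((S.n : ℚ) - 1) * (S.n - 2) * (u + r - 1) ≤
        3 * ((S.n : ℚ) - 1) * (S.n - 2) * (S.k - 1) := mul_le_mul_of_nonneg_left (by linarith) hD
    have b6 : (S.k * S.m : ℚ) * (S.k - 1) ≤ 3 * ((S.n : ℚ) - 1) * (S.n - 2) * (S.k - 1) := by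
      refine le_trans (le_of_eq ?_) (b1.trans b5)
      push_cast
      ring
    have b7 := le_of_mul_le_mul_right b6 (by linarith)
    nlinarith

theorem big (S : Cur) (hbig : 3 * (S.n - 1) * (S.n - 2) < S.m ∨
      (2 ≤ S.k ∧ 3 * S.n * (S.n + 1) ≤ S.k * S.m))
    (h2 : ∃ t t' : ℂ, t ≠ t' ∧ S.IsCusp t ∧ S.IsCusp t') :
    S.k = 1 ∧ ∃ v t : ℂ, S.e (some v) t = S.n := by
  rcases hbig with hbig | ⟨hk2, hbig⟩
  · rcases S.gen with h | h
    · omega
    · exact h
  · exfalso
    by_cases hE : ∃ v t : ℂ, S.e (some v) t = S.n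
    · obtain ⟨v₁, t₁, he⟩ := hE
      have := S.bigB he hk2 h2
      omega
    · push Not at hE
      have h3 := S.bigA (fun v t => lt_of_le_of_ne (S.Gen_e_le v t) (hE v t)) h2
      have hkn := S.hkn
      have h4 : 3 * (S.n - 1) * (S.n - 2) < 3 * S.n * (S.n + 1) := by
        obtain ⟨s, hs⟩ := Nat.exists_eq_add_of_le (show 2 ≤ S.n by omega)
        have e1 : S.n - 1 = s + 1 := by omega
        have e2 : S.n - 2 = s := by omega
        rw [e1, e2, hs]
        nlinarith
      rw [Nat.mul_comm S.m S.k] at h3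
      omega

end Cur

end WR
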