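import Pool.Agent.helper75.WRB.Big
import Pool.Agent.helper51.WR.WrapE

/-!
# WRB-Wrap: the coordinate free theorem with the bound `3 n (n + 1) ≤ k m`
-/

namespace WR

open Polynomial

namespace RatCusp

theorem mainBig (K : RatCusp) (m n k : ℕ) (h2 : 2 ≤ m) (hn : n + m = K.d) (hm : K.MultInf m)
    (T : Fin 3 → ℂ) (hT : K.Tangent m T) (hk : (K.form T).natDegree = k) (hk1 : 1 ≤ k)
    (hbig : 3 * ((n : ℤ) - 1) * (n - 2) < m ∨ (2 ≤ k ∧ 3 * n * (n + 1) ≤ k * m))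
    (h3 : ∃ t t' : ℂ, t ≠ t' ∧ K.Cusp t ∧ K.Cusp t') :
    k = 1 ∧ ∃ (t₁ t₂ : ℂ) (s₀ s₁ s₂ : ℤ), t₁ ≠ t₂ ∧ (∀ t, K.Cusp t ↔ t = t₁ ∨ t = t₂) ∧
      BrInf K.F K.d s₀ ∧ BrAt K.F t₁ s₁ ∧ BrAt K.F t₂ s₂ ∧
      9 - 3 * (K.d : ℤ) + (s₀ + s₁ + s₂) = 0 ∧
      ((K.d = m + 2 ∧ s₀ = 2 * m - 3 ∧ 1 ≤ s₁ ∧ 1 ≤ s₂ ∧ s₁ + s₂ = m) ∨
       (∃ l : ℕ, K.d = m + 3 ∧ m = 2 * l ∧ s₀ = 4 * l - 2 ∧ s₁ = 2 * l + 1 ∧ s₂ = 1) ∨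
       (∃ l : ℕ, K.d = m + 4 ∧ m = 3 * l ∧ s₀ = 6 * l - 1 ∧ s₁ = 3 * l + 3 ∧ s₂ = 1)) := by
  classical
  have hM : K.Meets := K.WrapD_meets hm h2 hT (by omega)
  obtain ⟨S, A, hA, ha, hb, hc, hSm, hSn, hcusp⟩ := K.normal m h2 hm hM
  have hnn : S.n = n := by omega
  obtain ⟨β, hβ, hTf⟩ := K.WrapD_T hA ha hb hc hSm hSn hT
  have hkk : S.k = k := by
    rw [← hk, hTf, natDegree_C_mul hβ, S.hb]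
  have hkn := S.hkn
  have hb2 : 3 * (S.n - 1) * (S.n - 2) < S.m ∨ (2 ≤ S.k ∧ 3 * S.n * (S.n + 1) ≤ S.k * S.m) := by
    rcases hbig with h | ⟨h4, h5⟩
    · left
      rw [hnn, hSm]
      have e1 : ((n - 1 : ℕ) : ℤ) = (n : ℤ) - 1 := by omega
      have e2 : ((n - 2 : ℕ) : ℤ) = (n : ℤ) - 2 := by omega
      have e3 : ((3 * (n - 1) * (n - 2) : ℕ) : ℤ) < (m : ℤ) := by
        push_cast [e1, e2]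
        exact h
      exact_mod_cast e3
    · right
      rw [hnn, hSm, hkk]
      exact ⟨h4, h5⟩
  obtain ⟨t, t', htt, ht, ht'⟩ := h3
  obtain ⟨hk', v, t₁, he⟩ := S.big hb2 ⟨t, t', htt, (hcusp t).2 ht, (hcusp t').2 ht'⟩
  exact ⟨hkk ▸ hk', K.WrapE_fin hA ha hb hc hSm hSn hcusp hk' he ⟨t, t', htt, ht, ht'⟩⟩

end RatCusp

end WR
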